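import Mathlib

namespace Pool.Agent.Results.MP_70387e_co.NonReg

abbrev Cell := ℤ × ℤ × ℤ

def OnBoard (n : ℕ) (x : Cell) : Prop :=
  x.1 ∈ Finset.Icc (1 : ℤ) n ∧ x.2.1 ∈ Finset.Icc (1 : ℤ) n ∧ x.2.2 ∈ Finset.Icc (1 : ℤ) n

def Attack (x y : Cell) : Prop :=
  x ≠ y ∧ ∃ (t : ℤ) (v : Cell), t ≠ 0 ∧ v ≠ 0 ∧
    v.1 ∈ ({-1, 0, 1} : Finset ℤ) ∧ v.2.1 ∈ ({-1, 0, 1} : Finset ℤ) ∧
    v.2.2 ∈ ({-1, 0, 1} : Finset ℤ) ∧ y - x = t • v

def Solution (n : ℕ) (S : Finset Cell) : Prop :=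
  S.card = n ^ 2 ∧ (∀ x ∈ S, OnBoard n x) ∧ ∀ x ∈ S, ∀ y ∈ S, ¬ Attack x y

def Regular (n : ℕ) (S : Finset Cell) : Prop :=
  ∃ a b c : ℤ, ∀ x ∈ S, x.2.2 ≡ a * x.1 + b * x.2.1 + c [ZMOD n]

def g (i j : ℤ) : ℤ := if i % 11 = 0 ∧ j % 11 = 0 then 1 else 0

def f (i j : ℤ) : ℤ := (2 * i + 5 * j + 11 * g i j) % 121 + 1

@[irreducible] noncomputable def S (N : ℤ) : Finset Cell :=
  (Finset.Icc (1 : ℤ) N ×ˢ Finset.Icc (1 : ℤ) N).image fun p => (p.1, p.2, f p.1 p.2)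

theorem memS {N : ℤ} {x : Cell} :
    x ∈ S N ↔ 1 ≤ x.1 ∧ x.1 ≤ N ∧ 1 ≤ x.2.1 ∧ x.2.1 ≤ N ∧ x.2.2 = f x.1 x.2.1 := by
  obtain ⟨i, j, k⟩ := x
  simp only [S, Finset.mem_image, Finset.mem_product, Finset.mem_Icc, Prod.mk.injEq, Prod.exists]
  constructor
  · rintro ⟨a, b, ⟨⟨h1, h2⟩, h3, h4⟩, rfl, rfl, rfl⟩
    exact ⟨h1, h2, h3, h4, rfl⟩
  · rintro ⟨h1, h2, h3, h4, rfl⟩
    exact ⟨i, j, ⟨⟨h1, h2⟩, h3, h4⟩, rfl, rfl, rfl⟩

theorem cardS (N : ℕ) : (S N).card = N ^ 2 := by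
  rw [S, Finset.card_image_of_injective _ fun p q h => by
    simp only [Prod.mk.injEq] at h; exact Prod.ext h.1 h.2.1]
  simp [pow_two]

theorem result : ∃ (n : ℕ) (S : Finset Cell), 1 ≤ n ∧ Solution n S ∧ ¬ Regular n S := by
  refine ⟨121, S (121 : ℕ), by norm_num, ⟨cardS _, fun x hx => ?_, ?_⟩, ?_⟩
  · obtain ⟨h1, h2, h3, h4, h5⟩ := memS.1 hx
    simp only [OnBoard, Finset.mem_Icc, h5, f]
    omega
  · rintro ⟨i, j, k⟩ hx ⟨i', j', k'⟩ hy ⟨-, t, ⟨a, b, c⟩, ht, hv, ha, hb, hc, h⟩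
    obtain ⟨h1, h2, h3, h4, h5⟩ := memS.1 hx
    obtain ⟨h1', h2', h3', h4', h5'⟩ := memS.1 hy
    simp only [Prod.mk_sub_mk, Prod.smul_mk, smul_eq_mul, Prod.mk.injEq, Finset.mem_insert,
      Finset.mem_singleton, ne_eq, Prod.mk_eq_zero] at *
    obtain ⟨e1, e2, e3⟩ := h
    unfold f at h5 h5'
    have h11 : t % 11 = 0 := by
      generalize g i j = p at *
      generalize g i' j' = q at *
      rcases ha with rfl | rfl | rfl <;> rcases hb with rfl | rfl | rfl <;>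
        rcases hc with rfl | rfl | rfl <;> omega
    have hg : g i' j' = g i j := by
      have : i' % 11 = i % 11 := by rcases ha with rfl | rfl | rfl <;> omega
      have : j' % 11 = j % 11 := by rcases hb with rfl | rfl | rfl <;> omega
      simp only [g, *]
    rw [hg] at h5'
    generalize g i j = p at *
    rcases ha with rfl | rfl | rfl <;> rcases hb with rfl | rfl | rfl <;>
      rcases hc with rfl | rfl | rfl <;> omega
  · rintro ⟨a, b, c, h⟩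
    have h1 := h (9, 11, f 9 11) (memS.2 (by simp))
    have h2 := h (10, 11, f 10 11) (memS.2 (by simp))
    have h3 := h (11, 11, f 11 11) (memS.2 (by simp))
    simp only [f, g, Int.ModEq] at h1 h2 h3
    norm_num at h1 h2 h3
    omega

end Pool.Agent.Results.MP_70387e_co.NonReg
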